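import Pool.Agent.Helper906_NullSet.Main

/-!
# A compact null set of levels which always meets a closed trajectory

Conventions of the problem: `ℂ^n = EuclideanSpace ℂ (Fin n)`, `z_j = x_j + i y_j`,
`ω = ∑ dx_j ∧ dy_j`, `ι_X ω = -dH`, `H₀ = ∑ λ_j |z_j|²`.

The theorem `result` says that the statement Q1 of the problem is false, for one and the same
compact Lebesgue null set `K ⊂ (0, ∞)`, in every dimension `n ≥ 1`, for all positive `λ_j` and
for every `ε`.  The corollary `not_Q1` is the literal negation of Q1.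
-/

set_option autoImplicit false

open Set MeasureTheory Filter Topology
open scoped ContDiff

namespace Pool.Agent.Results.MP_880fad_gt.NullSetObstruction

noncomputable section

/-- The standard symplectic form `ω = ∑ dx_j ∧ dy_j` on `ℂ^n`. -/
def omega {n : ℕ} (u v : EuclideanSpace ℂ (Fin n)) : ℝ :=
  ∑ j, ((u j).re * (v j).im - (u j).im * (v j).re)

/-- `X` is the value at `z` of the Hamiltonian vector field of `H`: `ω(X, v) = -dH_z(v)` for
all `v`. -/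
def IsHamiltonianVector {n : ℕ} (H : EuclideanSpace ℂ (Fin n) → ℝ)
    (z X : EuclideanSpace ℂ (Fin n)) : Prop :=
  ∀ v, omega X v = -(fderiv ℝ H z v)

/-- The level `{H = a}` contains a closed trajectory of the Hamiltonian vector field of `H`:
a nonconstant periodic solution of `γ' = X_H(γ)` with `H(γ(t)) = a`. -/
def HasClosedTrajectory {n : ℕ} (H : EuclideanSpace ℂ (Fin n) → ℝ) (a : ℝ) : Prop :=
  ∃ (γ : ℝ → EuclideanSpace ℂ (Fin n)) (T : ℝ), 0 < T ∧ (∀ t, γ (t + T) = γ t) ∧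
    (∃ t, γ t ≠ γ 0) ∧ (∀ t, ∃ X, HasDerivAt γ X t ∧ IsHamiltonianVector H (γ t) X) ∧
    ∀ t, H (γ t) = a

/-- The function `H₀ = ∑ λ_j |z_j|²`. -/
def ellipsoid {n : ℕ} (lam : Fin n → ℝ) (z : EuclideanSpace ℂ (Fin n)) : ℝ :=
  ∑ j, lam j * ‖z j‖ ^ 2

/-- `g` is a `C^∞` diffeomorphism of `ℂ^n`. -/
def IsDiffeo {n : ℕ} (g : EuclideanSpace ℂ (Fin n) → EuclideanSpace ℂ (Fin n)) : Prop :=
  ContDiff ℝ ∞ g ∧ ∃ g' : EuclideanSpace ℂ (Fin n) → EuclideanSpace ℂ (Fin n),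
    ContDiff ℝ ∞ g' ∧ (∀ z, g' (g z) = z) ∧ ∀ z, g (g' z) = z

/-- `H` is `ε`-admissible: `sup |H - H₀| < ε` and `H = H₀ ∘ Ψ₁` for a smooth isotopy `Ψ_t`,
`0 ≤ t ≤ 1`, of diffeomorphisms, starting at the identity, all equal to the identity outside
one compact set. -/
def Admissible {n : ℕ} (lam : Fin n → ℝ) (ε : ℝ) (H : EuclideanSpace ℂ (Fin n) → ℝ) : Prop :=
  (∃ δ : ℝ, δ < ε ∧ ∀ z, |H z - ellipsoid lam z| ≤ δ) ∧
  ∃ Ψ : ℝ → EuclideanSpace ℂ (Fin n) → EuclideanSpace ℂ (Fin n),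
    ContDiffOn ℝ ∞ (fun q : ℝ × EuclideanSpace ℂ (Fin n) => Ψ q.1 q.2) (Icc 0 1 ×ˢ univ) ∧
    (∀ t ∈ Icc (0 : ℝ) 1, IsDiffeo (Ψ t)) ∧ (∀ z, Ψ 0 z = z) ∧
    (∃ C : Set (EuclideanSpace ℂ (Fin n)), IsCompact C ∧
      ∀ t ∈ Icc (0 : ℝ) 1, ∀ z, z ∉ C → Ψ t z = z) ∧
    ∀ z, H z = ellipsoid lam (Ψ 1 z)

theorem omega_eq {n : ℕ} (u v : EuclideanSpace ℂ (Fin n)) : omega u v = (inner ℂ u v).im := by
  rw [omega, PiLp.inner_apply, Complex.im_sum]
  apply Finset.sum_congr rfl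
  intro j _
  rw [RCLike.inner_apply, Complex.mul_im, Complex.conj_re, Complex.conj_im]
  ring

theorem isHamiltonianVector_grad {n : ℕ} (H : EuclideanSpace ℂ (Fin n) → ℝ)
    (z : EuclideanSpace ℂ (Fin n)) :
    IsHamiltonianVector H z (Complex.I • Helper906_NullSet.grad H z) := by
  intro v
  rw [omega_eq, inner_smul_left]
  have h := Helper906_NullSet.re_inner_grad H z v
  rw [Complex.mul_im, Complex.conj_I, Complex.neg_re, Complex.neg_im, Complex.I_re,
    Complex.I_im, h]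
  ring

theorem contDiff_ellipsoid {n : ℕ} (lam : Fin n → ℝ) : ContDiff ℝ ∞ (ellipsoid lam) := by
  unfold ellipsoid
  apply ContDiff.sum
  intro j _
  apply ContDiff.mul contDiff_const
  have h : ContDiff ℝ ∞ (fun z : EuclideanSpace ℂ (Fin n) => z j) := by
    fun_prop
  exact h.norm_sq ℝ

theorem ellipsoid_lower {n : ℕ} (lam : Fin n → ℝ) (hlam : ∀ j, 0 < lam j) :
    ∃ c : ℝ, 0 < c ∧ ∀ z, c * ‖z‖ ^ 2 ≤ ellipsoid lam z := by
  obtain ⟨c, hc, hcl⟩ : ∃ c : ℝ, 0 < c ∧ ∀ j, c ≤ lam j := by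
    rcases isEmpty_or_nonempty (Fin n) with h | h
    · exact ⟨1, one_pos, fun j => (h.false j).elim⟩
    · obtain ⟨j0, hj0⟩ := Finite.exists_min lam
      exact ⟨lam j0, hlam j0, hj0⟩
  refine ⟨c, hc, fun z => ?_⟩
  rw [EuclideanSpace.norm_sq_eq, ellipsoid, Finset.mul_sum]
  exact Finset.sum_le_sum fun j _ => mul_le_mul_of_nonneg_right (hcl j) (by positivity)

theorem fderiv_ellipsoid_self {n : ℕ} (lam : Fin n → ℝ) (z : EuclideanSpace ℂ (Fin n)) :
    fderiv ℝ (ellipsoid lam) z z = 2 * ellipsoid lam z := by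
  have hd : DifferentiableAt ℝ (ellipsoid lam) z :=
    ((contDiff_ellipsoid lam).differentiable (by simp)) z
  have h1 : HasDerivAt (fun t : ℝ => t • z) z 1 := by
    have := (hasDerivAt_id (1 : ℝ)).smul_const z
    simpa using this
  have h2 : HasDerivAt (fun t : ℝ => ellipsoid lam (t • z)) (fderiv ℝ (ellipsoid lam) z z) 1 := by
    have h3 : HasFDerivAt (ellipsoid lam) (fderiv ℝ (ellipsoid lam) z) ((1 : ℝ) • z) := by
      rw [one_smul]
      exact hd.hasFDerivAt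
    exact h3.comp_hasDerivAt (1 : ℝ) h1
  have h4 : (fun t : ℝ => ellipsoid lam (t • z)) = fun t : ℝ => t ^ 2 * ellipsoid lam z := by
    funext t
    rw [ellipsoid, ellipsoid, Finset.mul_sum]
    apply Finset.sum_congr rfl
    intro j _
    rw [PiLp.smul_apply, norm_smul, mul_pow, Real.norm_eq_abs, sq_abs]
    ring
  rw [h4] at h2
  have h5 : HasDerivAt (fun t : ℝ => t ^ 2 * ellipsoid lam z) (2 * ellipsoid lam z) 1 := by
    have := ((hasDerivAt_pow 2 (1 : ℝ)).mul_const (ellipsoid lam z))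
    simpa using this
  exact h2.unique h5

/-- **Main theorem.**  There is a compact Lebesgue null set `K ⊂ (0, ∞)` such that in every
dimension `n ≥ 1`, for all positive `λ_j`, every `ε` and every `ε`-admissible function `H`, some
level `{H = a}` with `a ∈ K` contains a closed trajectory. -/
theorem result : ∃ K : Set ℝ, IsCompact K ∧ K ⊆ Ioi 0 ∧ volume K = 0 ∧
    ∀ n : ℕ, 1 ≤ n → ∀ lam : Fin n → ℝ, (∀ j, 0 < lam j) → ∀ ε : ℝ,
      ∀ H : EuclideanSpace ℂ (Fin n) → ℝ, Admissible lam ε H →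
        ∃ a ∈ K, HasClosedTrajectory H a := by
  obtain ⟨K, hK1, hK2, hK3, hK4⟩ := Helper906_NullSet.main_general
  refine ⟨K, hK1, fun a ha => lt_of_lt_of_le one_pos (hK2 ha).1, hK3, ?_⟩
  intro n hn lam hlam ε H hH
  obtain ⟨m, rfl⟩ : ∃ m, n = m + 1 := ⟨n - 1, by omega⟩
  obtain ⟨-, Ψ, -, hdiff, -, -, hHΨ⟩ := hH
  obtain ⟨hψ, ψ', hψ', h1, h2⟩ := hdiff 1 (right_mem_Icc.2 zero_le_one)
  have hHe : H = fun z => ellipsoid lam (Ψ 1 z) := funext hHΨ
  have hHs : ContDiff ℝ ∞ H := by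
    rw [hHe]
    exact (contDiff_ellipsoid lam).comp hψ
  obtain ⟨c, hc, hcz⟩ := ellipsoid_lower lam hlam
  have hbd : Bornology.IsBounded {x | H x ≤ 2} := by
    have hcomp : IsCompact (ψ' '' Metric.closedBall 0 (Real.sqrt (2 / c))) :=
      (isCompact_closedBall _ _).image hψ'.continuous
    apply hcomp.isBounded.subset
    intro x hx
    refine ⟨Ψ 1 x, ?_, h1 x⟩
    rw [mem_closedBall_zero_iff]
    apply Real.le_sqrt_of_sq_le
    rw [le_div_iff₀ hc, mul_comm]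
    refine (hcz _).trans ?_
    rw [← hHΨ]
    exact hx
  have hz : ∃ z, H z < 1 := by
    refine ⟨ψ' 0, ?_⟩
    rw [hHΨ, h2]
    simp [ellipsoid]
  have hreg : ∀ x, 1 ≤ H x → H x ≤ 2 → fderiv ℝ H x ≠ 0 := by
    intro x hx _ hx0
    have e1 : ellipsoid lam = fun z => H (ψ' z) := by
      funext z
      rw [hHΨ, h2]
    have hHd : DifferentiableAt ℝ H (ψ' (Ψ 1 x)) := (hHs.differentiable (by simp)) _
    have hψd : DifferentiableAt ℝ ψ' (Ψ 1 x) := (hψ'.differentiable (by simp)) _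
    have e2 : fderiv ℝ (ellipsoid lam) (Ψ 1 x) = 0 := by
      rw [e1]
      have := fderiv_comp (Ψ 1 x) hHd hψd
      rw [h1, hx0] at this
      rw [show (fun z => H (ψ' z)) = H ∘ ψ' from rfl, this]
      simp
    have e3 := fderiv_ellipsoid_self lam (Ψ 1 x)
    rw [e2] at e3
    simp only [zero_apply] at e3
    rw [← hHΨ] at e3
    linarith
  obtain ⟨a, haK, x, τ, hτ, htr, hper, hHa, hnc⟩ := hK4 m H hHs hbd hz hreg
  exact ⟨a, haK, x, τ, hτ, hper, hnc,
    fun t => ⟨_, htr t, isHamiltonianVector_grad H (x t)⟩, hHa⟩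

/-- The statement Q1 of the problem. -/
def Q1 : Prop :=
  ∀ n : ℕ, 3 ≤ n → ∀ lam : Fin n → ℝ, (∀ j, 0 < lam j) → LinearIndependent ℚ lam →
    ∀ K : Set ℝ, IsCompact K → K ⊆ Ioi 0 → volume K = 0 → ∀ ε : ℝ, 0 < ε →
      ∃ H : EuclideanSpace ℂ (Fin n) → ℝ, Admissible lam ε H ∧
        ∀ a ∈ K, ¬ HasClosedTrajectory H a

theorem exists_independent : ∃ lam : Fin 3 → ℝ, (∀ j, 0 < lam j) ∧ LinearIndependent ℚ lam := by
  have b := Module.Basis.ofVectorSpace ℚ ℝ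
  have hinf : Infinite (Module.Basis.ofVectorSpaceIndex ℚ ℝ) := by
    rw [Cardinal.infinite_iff, b.mk_eq_rank'', Real.rank_rat_real]
    exact Cardinal.aleph0_le_continuum
  let e : Fin 3 ↪ Module.Basis.ofVectorSpaceIndex ℚ ℝ :=
    Fin.valEmbedding.trans (Infinite.natEmbedding _)
  have hind : LinearIndependent ℚ (fun j : Fin 3 => b (e j)) :=
    b.linearIndependent.comp e e.injective
  have hs : ∀ j : Fin 3, ∃ u : ℚˣ, 0 < u • b (e j) := by
    intro j
    have hne : b (e j) ≠ 0 := b.ne_zero (e j)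
    rcases lt_or_gt_of_ne hne with h | h
    · refine ⟨-1, ?_⟩
      rw [Units.smul_def]
      simpa using h
    · refine ⟨1, ?_⟩
      simpa using h
  choose u hu using hs
  exact ⟨u • fun j => b (e j), hu, hind.units_smul u⟩

/-- Q1 is false. -/
theorem not_Q1 : ¬ Q1 := by
  intro h
  obtain ⟨K, hK1, hK2, hK3, hK4⟩ := result
  obtain ⟨lam, hlam, hind⟩ := exists_independent
  obtain ⟨H, hH, hno⟩ := h 3 le_rfl lam hlam hind K hK1 hK2 hK3 1 one_pos
  obtain ⟨a, ha, hcl⟩ := hK4 3 (by norm_num) lam hlam 1 H hH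
  exact hno a ha hcl

end

end Pool.Agent.Results.MP_880fad_gt.NullSetObstruction
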